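import Mathlib

/-!
# The p-adic Subspace theorem over the rationals: interface

`Places`: a finite family of absolute values on the rationals with the two facts used in the proof.
`ThmA`: penultimate theorem (n-1 independent integer vectors in a small domain).
`ThmB`: parametric Subspace theorem.
`ThmC`: Subspace theorem.
-/

set_option autoImplicit false

namespace Pool.Agent.SST

open scoped BigOperators

/-- a finite family of absolute values of `ℚ` with a product formula (inequality) for integers -/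
structure Places (ι : Type) [Fintype ι] where
  v : ι → AbsoluteValue ℚ ℝ
  pf : ∀ x : ℤ, x ≠ 0 → 1 ≤ ∏ i, v i (x : ℚ)
  le : ∀ (i : ι) (x : ℤ), v i (x : ℚ) ≤ |(x : ℝ)|

/-- scalar product of integer vectors -/
def dt {n : ℕ} (a x : Fin n → ℤ) : ℤ := ∑ k, a k * x k

/-- vector of integers as a rational vector -/
def qv {n : ℕ} (x : Fin n → ℤ) : Fin n → ℚ := fun k => (x k : ℚ)

/-- the domain `|L_v,k (x)|_v ≤ Q ^ c_v,k` -/
def Dom {ι : Type} [Fintype ι] (W : Places ι) {n : ℕ} (L : ι → Matrix (Fin n) (Fin n) ℤ)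
    (c : ι → Fin n → ℝ) (Q : ℝ) (x : Fin n → ℤ) : Prop :=
  ∀ i k, W.v i (((L i).mulVec x k : ℤ) : ℚ) ≤ Q ^ c i k

/-- PENULTIMATE THEOREM: the hyperplanes spanned by `n` independent integer vectors of a domain
with negative exponent sum (dimension `n + 1`) belong to a finite set. -/
def ThmA : Prop :=
  ∀ (ι : Type) [Fintype ι] (W : Places ι) (n : ℕ), 1 ≤ n →
    ∀ (L : ι → Matrix (Fin (n + 1)) (Fin (n + 1)) ℤ), (∀ i, (L i).det ≠ 0) →
    ∀ (c : ι → Fin (n + 1) → ℝ), ∑ i, ∑ k, c i k < 0 →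
    ∃ (Q₀ : ℝ) (T : Finset (Fin (n + 1) → ℤ)), (∀ a ∈ T, a ≠ 0) ∧
      ∀ Q : ℝ, Q₀ ≤ Q → ∀ g : Fin n → Fin (n + 1) → ℤ, LinearIndependent ℚ (fun j => qv (g j)) →
        (∀ j, Dom W L c Q (g j)) → ∃ a ∈ T, ∀ j, dt a (g j) = 0

/-- the places of a finite set of primes and the infinite place `none` -/
noncomputable def av (P : Finset ℕ) : Option {p // p ∈ P} → ℚ → ℝ
  | none, x => |(x : ℝ)|
  | some p, x => ((padicNorm p.1 x : ℚ) : ℝ)

/-- PARAMETRIC SUBSPACE THEOREM -/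
def ThmB : Prop :=
  ∀ (P : Finset ℕ), (∀ p ∈ P, p.Prime) → ∀ n : ℕ, 1 ≤ n →
    ∀ (L : Option {p // p ∈ P} → Matrix (Fin (n + 1)) (Fin (n + 1)) ℤ), (∀ i, (L i).det ≠ 0) →
    ∀ (c : Option {p // p ∈ P} → Fin (n + 1) → ℝ), ∑ i, ∑ k, c i k < 0 →
    ∃ (Q₀ : ℝ) (T : Finset (Fin (n + 1) → ℤ)), (∀ a ∈ T, a ≠ 0) ∧
      ∀ Q : ℝ, Q₀ ≤ Q → ∀ x : Fin (n + 1) → ℤ,
        (∀ i k, av P i (((L i).mulVec x k : ℤ) : ℚ) ≤ Q ^ c i k) → ∃ a ∈ T, dt a x = 0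

/-- SUBSPACE THEOREM (Schmidt, Schlickewei) over the rationals, integer forms -/
def ThmC : Prop :=
  ∀ (P : Finset ℕ), (∀ p ∈ P, p.Prime) → ∀ n : ℕ, 1 ≤ n →
    ∀ (L : Option {p // p ∈ P} → Matrix (Fin (n + 1)) (Fin (n + 1)) ℤ), (∀ i, (L i).det ≠ 0) →
    ∀ ε : ℝ, 0 < ε → ∃ T : Finset (Fin (n + 1) → ℤ), (∀ a ∈ T, a ≠ 0) ∧
      ∀ x : Fin (n + 1) → ℤ, x ≠ 0 → ∀ H : ℝ, (∀ k, |(x k : ℝ)| ≤ H) →
        ∏ i, ∏ k, av P i (((L i).mulVec x k : ℤ) : ℚ) ≤ H ^ (-ε) → ∃ a ∈ T, dt a x = 0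

end Pool.Agent.SST
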